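import Mathlib

namespace Pool.Agent.Results.MP_19e396_co.KMin

/-- A graph is claw-free when it has no induced subgraph isomorphic to `K_{1,3}`. -/
def ClawFree {V : Type} (G : SimpleGraph V) : Prop :=
  ¬ (completeBipartiteGraph (Fin 1) (Fin 3)).IsIndContained G

/-- The closed neighbourhood `N[S]`. -/
def closedNbhd {V : Type} (G : SimpleGraph V) (S : Set V) : Set V :=
  {v | v ∈ S ∨ ∃ s ∈ S, G.Adj s v}

/-- One application of the propagation rule: some `v ∈ M` has at most `k` neighbours outside `M`,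
and all of them are added to `M`. -/
def PropStep {V : Type} (G : SimpleGraph V) (k : ℕ) (M M' : Set V) : Prop :=
  ∃ v ∈ M, (G.neighborSet v \ M).ncard ≤ k ∧ M' = M ∪ (G.neighborSet v \ M)

/-- `M` is an outcome of the process: it is reached from `N[S]` by applications of the
propagation rule, and no application of the rule changes it. -/
def IsMonitoredSet {V : Type} (G : SimpleGraph V) (k : ℕ) (S M : Set V) : Prop :=
  Relation.ReflTransGen (PropStep G k) (closedNbhd G S) M ∧ ∀ M', PropStep G k M M' → M' = M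

/-- `S` is a `k`-power dominating set: the process started from `S` ends with the whole
vertex set. -/
def IsPowerDominating {V : Type} (G : SimpleGraph V) (k : ℕ) (S : Set V) : Prop :=
  IsMonitoredSet G k S Set.univ

/-- The `k`-power domination number: the least size of a `k`-power dominating set. -/
noncomputable def powerDominationNumber {V : Type} (G : SimpleGraph V) (k : ℕ) : ℕ :=
  sInf {m | ∃ S : Finset V, S.card = m ∧ IsPowerDominating G k (S : Set V)}

/-- Closed sets of the process. -/
def Closed {V : Type} (G : SimpleGraph V) (k : ℕ) (M : Set V) : Prop :=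
  ∀ v ∈ M, (G.neighborSet v \ M).ncard ≤ k → G.neighborSet v ⊆ M

section Basic

variable {V : Type} [Finite V] {G : SimpleGraph V} {k : ℕ}

lemma closed_univ : Closed G k Set.univ := fun _ _ _ => Set.subset_univ _

lemma Closed.sInter {F : Set (Set V)} (h : ∀ M ∈ F, Closed G k M) : Closed G k (⋂₀ F) := by
  intro v hv hc
  refine Set.subset_sInter fun M hM => h M hM v (hv M hM) ?_
  refine (Set.ncard_le_ncard ?_ (Set.toFinite _)).trans hc
  exact Set.sdiff_subset_sdiff_right (Set.sInter_subset_of_mem hM)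

/-- The least closed set containing `N[S]`. -/
def cl (G : SimpleGraph V) (k : ℕ) (S : Set V) : Set V :=
  ⋂₀ {C | Closed G k C ∧ closedNbhd G S ⊆ C}

lemma closed_cl (S : Set V) : Closed G k (cl G k S) :=
  Closed.sInter fun _ hM => hM.1

lemma closedNbhd_subset_cl (S : Set V) : closedNbhd G S ⊆ cl G k S :=
  Set.subset_sInter fun _ hM => hM.2

lemma cl_subset {S C : Set V} (h : Closed G k C) (h' : closedNbhd G S ⊆ C) : cl G k S ⊆ C :=
  Set.sInter_subset_of_mem ⟨h, h'⟩

lemma reach_subset {S M C : Set V} (h : Closed G k C) (h' : closedNbhd G S ⊆ C)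
    (hM : Relation.ReflTransGen (PropStep G k) (closedNbhd G S) M) : M ⊆ C := by
  induction hM with
  | refl => exact h'
  | tail _ hst ih =>
    obtain ⟨v, hv, hc, rfl⟩ := hst
    refine Set.union_subset ih (Set.sdiff_subset.trans (h v (ih hv) ?_))
    exact (Set.ncard_le_ncard (Set.sdiff_subset_sdiff_right ih) (Set.toFinite _)).trans hc

/-- The outcome of the process is unique: it is the least closed set containing `N[S]`. -/
lemma isMonitoredSet_iff {S M : Set V} : IsMonitoredSet G k S M ↔ M = cl G k S := by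
  have key : ∀ M, IsMonitoredSet G k S M → M = cl G k S := by
    intro M hM
    refine Set.Subset.antisymm (reach_subset (closed_cl S) (closedNbhd_subset_cl S) hM.1) ?_
    refine cl_subset ?_ ?_
    · intro v hv hc
      have := hM.2 _ ⟨v, hv, hc, rfl⟩
      intro w hw
      by_contra hwM
      apply hwM
      rw [← this]
      exact Or.inr ⟨hw, hwM⟩
    · have : ∀ M, Relation.ReflTransGen (PropStep G k) (closedNbhd G S) M →
          closedNbhd G S ⊆ M := by
        intro M h
        induction h with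
        | refl => exact subset_rfl
        | tail _ hst ih =>
          obtain ⟨v, hv, hc, rfl⟩ := hst
          exact ih.trans Set.subset_union_left
      exact this M hM.1
  refine ⟨key M, ?_⟩
  rintro rfl
  -- existence of an outcome
  obtain ⟨M, hM, hmax⟩ := Set.Finite.exists_maximal (Set.toFinite
    {M | Relation.ReflTransGen (PropStep G k) (closedNbhd G S) M})
    ⟨_, Relation.ReflTransGen.refl⟩
  have : IsMonitoredSet G k S M := by
    refine ⟨hM, ?_⟩
    intro M' hst
    have h1 : M ⊆ M' := by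
      obtain ⟨v, hv, hc, rfl⟩ := hst
      exact Set.subset_union_left
    exact Set.Subset.antisymm (hmax (hM.tail hst) h1) h1
  rwa [← key M this]

lemma isPowerDominating_iff {S : Set V} :
    IsPowerDominating G k S ↔ cl G k S = Set.univ := by
  unfold IsPowerDominating
  rw [isMonitoredSet_iff, eq_comm]

end Basic

section Upper

variable {V : Type} [Finite V] {G : SimpleGraph V} {k : ℕ}

/-- Every boundary vertex of the monitored set has a neighbour whose whole closed
neighbourhood is monitored. -/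
lemma exists_inner {S : Set V} {v u : V} (hv : v ∈ cl G k S) (hvu : G.Adj v u)
    (hu : u ∉ cl G k S) : ∃ x ∈ cl G k S, G.Adj v x ∧ G.neighborSet x ⊆ cl G k S := by
  set M := cl G k S with hM
  let M' : Set V := {v | v ∈ M ∧ (G.neighborSet v ⊆ M ∨ ∃ x ∈ M, G.Adj v x ∧
    G.neighborSet x ⊆ M)}
  have hM'M : M' ⊆ M := fun x hx => hx.1
  have hsub : M ⊆ M' := by
    refine cl_subset ?_ ?_
    · intro v hv hc
      have h1 : G.neighborSet v ⊆ M := by
        refine closed_cl S v hv.1 (le_trans ?_ hc)
        exact Set.ncard_le_ncard (Set.sdiff_subset_sdiff_right hM'M) (Set.toFinite _)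
      intro w hw
      exact ⟨h1 hw, Or.inr ⟨v, hv.1, SimpleGraph.Adj.symm hw, h1⟩⟩
    · have hS : ∀ s ∈ S, s ∈ M ∧ G.neighborSet s ⊆ M := by
        intro s hs
        refine ⟨closedNbhd_subset_cl S (Or.inl hs), ?_⟩
        intro w hw
        exact closedNbhd_subset_cl S (Or.inr ⟨s, hs, hw⟩)
      rintro w (hw | ⟨s, hs, hsw⟩)
      · exact ⟨(hS w hw).1, Or.inl (hS w hw).2⟩
      · exact ⟨(hS s hs).2 hsw, Or.inr ⟨s, (hS s hs).1, hsw.symm, (hS s hs).2⟩⟩
  rcases (hsub hv).2 with h | h
  · exact absurd (h hvu) hu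
  · exact h

/-- Claw-freeness in elementary terms. -/
lemma ClawFree.adj_or (hG : ClawFree G) {v a b c : V} (ha : G.Adj v a) (hb : G.Adj v b)
    (hc : G.Adj v c) (hab : a ≠ b) (hac : a ≠ c) (hbc : b ≠ c) :
    G.Adj a b ∨ G.Adj a c ∨ G.Adj b c := by
  by_contra hcon
  obtain ⟨h1, h2, h3⟩ : ¬ G.Adj a b ∧ ¬ G.Adj a c ∧ ¬ G.Adj b c := by tauto
  apply hG
  have hva := ha.ne
  have hvb := hb.ne
  have hvc := hc.ne
  let f : Fin 1 ⊕ Fin 3 → V := Sum.elim (fun _ => v) ![a, b, c]
  refine ⟨⟨⟨f, ?_⟩, ?_⟩⟩
  · rintro (x | x) (y | y) hxy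
    · congr 1; exact Subsingleton.elim _ _
    · exfalso
      fin_cases y <;> simp [f] at hxy <;> tauto
    · exfalso
      fin_cases x <;> simp [f] at hxy <;> first | exact hva hxy.symm | exact hvb hxy.symm | exact hvc hxy.symm
    · congr 1
      fin_cases x <;> fin_cases y <;> simp [f] at hxy ⊢ <;> first | exact hab hxy | exact hac hxy | exact hbc hxy | exact hab hxy.symm | exact hac hxy.symm | exact hbc hxy.symm
  · intro x y
    change G.Adj (f x) (f y) ↔ _
    have h1' := fun h => h1 (SimpleGraph.Adj.symm h)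
    have h2' := fun h => h2 (SimpleGraph.Adj.symm h)
    have h3' := fun h => h3 (SimpleGraph.Adj.symm h)
    rcases x with x | x <;> rcases y with y | y
    · simp [f, completeBipartiteGraph]
    · fin_cases y <;> simp [f, completeBipartiteGraph, ha, hb, hc]
    · fin_cases x <;> simp [f, completeBipartiteGraph, ha.symm, hb.symm, hc.symm]
    · fin_cases x <;> fin_cases y <;>
        simp [f, completeBipartiteGraph, h1, h2, h3] <;> assumption

/-- Big cliques: cliques with at least `k + 2` vertices. -/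
def Big (G : SimpleGraph V) (k : ℕ) (Q : Set V) : Prop := G.IsClique Q ∧ k + 2 ≤ Q.ncard

lemma big_of_boundary (hG : ClawFree G) {S : Set V} {v u : V} (hv : v ∈ cl G k S)
    (hvu : G.Adj v u) (hu : u ∉ cl G k S) : ∃ Q, Big G k Q ∧ v ∈ Q ∧ u ∈ Q := by
  obtain ⟨x, hxM, hvx, hx⟩ := exists_inner hv hvu hu
  refine ⟨insert v (G.neighborSet v \ cl G k S), ⟨?_, ?_⟩, Set.mem_insert _ _,
    Set.mem_insert_of_mem _ ⟨hvu, hu⟩⟩
  · rw [SimpleGraph.isClique_insert]
    refine ⟨?_, fun w hw _ => hw.1⟩
    intro a ha b hb hab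
    have hxa : ¬ G.Adj x a := fun h => ha.2 (hx h)
    have hxb : ¬ G.Adj x b := fun h => hb.2 (hx h)
    have := hG.adj_or hvx ha.1 hb.1 (fun h => ha.2 (h ▸ hxM)) (fun h => hb.2 (h ▸ hxM)) hab
    tauto
  · rw [Set.ncard_insert_of_notMem (fun h => h.2 hv) (Set.toFinite _)]
    have : ¬ (G.neighborSet v \ cl G k S).ncard ≤ k := by
      intro h
      exact hu (closed_cl S v hv h hvu)
    omega

/-- A big clique inside a closed set has all its neighbours in the closed set. -/
lemma nbhd_subset_of_big {r : ℕ} (hreg : ∀ v, (G.neighborSet v).ncard = r)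
    (hr : r ≤ 2 * k + 1) {M Q : Set V} (hM : Closed G k M) (hQ : Big G k Q) (hQM : Q ⊆ M)
    {v : V} (hv : v ∈ Q) : G.neighborSet v ⊆ M := by
  refine hM v (hQM hv) ?_
  have h1 : Q \ {v} ⊆ G.neighborSet v := fun w hw =>
    hQ.1 hv hw.1 (fun h => hw.2 h.symm)
  have h2 : (G.neighborSet v \ M) ⊆ G.neighborSet v \ (Q \ {v}) :=
    Set.sdiff_subset_sdiff_right (Set.sdiff_subset.trans hQM)
  have h3 := Set.ncard_le_ncard h2 (Set.toFinite _)
  have h4 : (G.neighborSet v \ (Q \ {v})).ncard + (Q \ {v}).ncard = (G.neighborSet v).ncard :=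
    Set.ncard_sdiff_add_ncard_of_subset h1 (Set.toFinite _)
  have h5 : (Q \ {v}).ncard + 1 = Q.ncard := Set.ncard_sdiff_singleton_add_one hv (Set.toFinite _)
  have h6 := hQ.2
  rw [hreg] at h4
  omega

/-- The cluster relation: generated by lying in a common big clique. -/
def Clus (G : SimpleGraph V) (k : ℕ) : V → V → Prop :=
  Relation.ReflTransGen fun v w => ∃ Q, Big G k Q ∧ v ∈ Q ∧ w ∈ Q

lemma Clus.symm {v w : V} (h : Clus G k v w) : Clus G k w v := by
  induction h with
  | refl => exact Relation.ReflTransGen.refl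
  | tail _ hst ih =>
    obtain ⟨Q, hQ, ha, hb⟩ := hst
    exact Relation.ReflTransGen.head ⟨Q, hQ, hb, ha⟩ ih

lemma Clus.trans {u v w : V} (h : Clus G k u v) (h' : Clus G k v w) : Clus G k u w :=
  Relation.ReflTransGen.trans h h'

/-- `Full G k M v`: `v` lies in a big clique contained in `M`. -/
def Full (G : SimpleGraph V) (k : ℕ) (M : Set V) (v : V) : Prop :=
  ∃ Q, Big G k Q ∧ v ∈ Q ∧ Q ⊆ M

lemma Full.clus {r : ℕ} (hreg : ∀ v, (G.neighborSet v).ncard = r)
    (hr : r ≤ 2 * k + 1) {M : Set V} (hM : Closed G k M) {v w : V} (hv : Full G k M v)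
    (h : Clus G k v w) : Full G k M w := by
  induction h with
  | refl => exact hv
  | @tail b c _ hst ih =>
    obtain ⟨Q', hQ', hb, hc⟩ := hst
    obtain ⟨Q, hQ, hbQ, hQM⟩ := ih
    refine ⟨Q', hQ', hc, ?_⟩
    intro x hx
    by_cases hxb : x = b
    · exact hxb ▸ hQM hbQ
    · exact nbhd_subset_of_big hreg hr hM hQ hQM hbQ (hQ'.1 hb hx (Ne.symm hxb))

lemma Full.nbhd {r : ℕ} (hreg : ∀ v, (G.neighborSet v).ncard = r)
    (hr : r ≤ 2 * k + 1) {M : Set V} (hM : Closed G k M) {v : V} (hv : Full G k M v) :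
    v ∈ M ∧ G.neighborSet v ⊆ M := by
  obtain ⟨Q, hQ, hvQ, hQM⟩ := hv
  exact ⟨hQM hvQ, nbhd_subset_of_big hreg hr hM hQ hQM hvQ⟩

/-- A nonempty set meeting all the clusters in clique vertices is power dominating. -/
lemma cl_eq_univ {r : ℕ} (hcon : G.Connected) (hG : ClawFree G)
    (hreg : ∀ v, (G.neighborSet v).ncard = r) (hr : r ≤ 2 * k + 1) {S : Set V}
    (hne : S.Nonempty)
    (hS : ∀ Q, Big G k Q → ∀ v ∈ Q, ∃ s ∈ S, Clus G k s v ∧ ∃ Q', Big G k Q' ∧ s ∈ Q') :
    cl G k S = Set.univ := by
  by_contra hM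
  obtain ⟨s, hs⟩ := hne
  obtain ⟨t, ht⟩ := (Set.ne_univ_iff_exists_notMem _).1 hM
  have hsM : s ∈ cl G k S := closedNbhd_subset_cl S (Or.inl hs)
  obtain ⟨w⟩ := hcon.preconnected s t
  obtain ⟨d, -, hd1, hd2⟩ := w.exists_boundary_dart (cl G k S) hsM ht
  obtain ⟨Q, hQ, h1, h2⟩ := big_of_boundary hG hd1 d.adj hd2
  obtain ⟨s', hs', hc, Q', hQ', hs'Q⟩ := hS Q hQ _ h1
  have hfull : Full G k (cl G k S) s' := by
    refine ⟨Q', hQ', hs'Q, ?_⟩
    intro x hx
    by_cases hxs : s' = x
    · exact hxs ▸ closedNbhd_subset_cl S (Or.inl hs')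
    · exact closedNbhd_subset_cl S (Or.inr ⟨s', hs', hQ'.1 hs'Q hx hxs⟩)
  have := (hfull.clus hreg hr (closed_cl S) hc).nbhd hreg hr (closed_cl S)
  exact hd2 (this.2 d.adj)

theorem upper {r : ℕ} (hcon : G.Connected) (hG : ClawFree G)
    (hreg : ∀ v, (G.neighborSet v).ncard = r) (hr : r ≤ 2 * k + 1) :
    ∃ S : Finset V, IsPowerDominating G k (S : Set V) ∧ S.card * (r + 1) ≤ Nat.card V := by
  classical
  have hNcard : ∀ v, (insert v (G.neighborSet v)).ncard = r + 1 := by
    intro v
    rw [Set.ncard_insert_of_notMem (by simp) (Set.toFinite _), hreg]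
  by_cases hbig : ∃ Q, Big G k Q
  swap
  · obtain ⟨v⟩ := hcon.nonempty
    refine ⟨{v}, ?_, ?_⟩
    · rw [isPowerDominating_iff]
      refine cl_eq_univ hcon hG hreg hr (by simp) ?_
      intro Q hQ
      exact absurd ⟨Q, hQ⟩ hbig
    · rw [Finset.card_singleton, one_mul, ← hNcard v]
      exact Set.ncard_le_card _
  -- the family of power dominating sets made of vertices of big cliques
  let P : Finset V → Prop := fun S =>
    (∀ s ∈ S, ∃ Q, Big G k Q ∧ s ∈ Q) ∧ cl G k (S : Set V) = Set.univ
  have hP : ∃ S, P S := by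
    refine ⟨(Set.toFinite {v | ∃ Q, Big G k Q ∧ v ∈ Q}).toFinset, ?_, ?_⟩
    · intro s hs
      simpa using hs
    · rw [Set.Finite.coe_toFinset]
      obtain ⟨Q, hQ⟩ := hbig
      have hQne : Q.Nonempty := by
        rw [← Set.ncard_pos (Set.toFinite _)]
        have := hQ.2
        omega
      obtain ⟨q, hq⟩ := hQne
      refine cl_eq_univ hcon hG hreg hr ⟨q, Q, hQ, hq⟩ ?_
      intro Q' hQ' v hv
      exact ⟨v, ⟨Q', hQ', hv⟩, Relation.ReflTransGen.refl, Q', hQ', hv⟩
  obtain ⟨S, hS, hmin⟩ := Set.Finite.exists_minimal (Set.toFinite {S | P S}) hP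
  refine ⟨S, isPowerDominating_iff.2 hS.2, ?_⟩
  -- removing an element destroys domination
  have hne : ∀ s ∈ S, cl G k ((S.erase s : Finset V) : Set V) ≠ Set.univ := by
    intro s hs hc
    have h1 : P (S.erase s) := ⟨fun t ht => hS.1 t (Finset.mem_of_mem_erase ht), hc⟩
    have h2 := hmin h1 (Finset.erase_subset _ _)
    exact Finset.notMem_erase s S (h2 hs)
  have hfull : ∀ s ∈ S, ∀ t ∈ S, t ≠ s → Full G k (cl G k ((S.erase s : Finset V) : Set V)) t := by
    intro s hs t ht hts
    obtain ⟨Q, hQ, htQ⟩ := hS.1 t ht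
    have htS : t ∈ ((S.erase s : Finset V) : Set V) := by
      exact Finset.mem_coe.2 (Finset.mem_erase.2 ⟨hts, ht⟩)
    refine ⟨Q, hQ, htQ, ?_⟩
    intro x hx
    by_cases hxs : t = x
    · exact hxs ▸ closedNbhd_subset_cl _ (Or.inl htS)
    · exact closedNbhd_subset_cl _ (Or.inr ⟨t, htS, hQ.1 htQ hx hxs⟩)
  have hnfull : ∀ s ∈ S, ¬ Full G k (cl G k ((S.erase s : Finset V) : Set V)) s := by
    intro s hs hfs
    apply hne s hs
    have h1 := hfs.nbhd hreg hr (closed_cl _)
    rw [Set.eq_univ_iff_forall]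
    intro x
    have hx : x ∈ cl G k (S : Set V) := by rw [hS.2]; trivial
    refine cl_subset (closed_cl _) ?_ hx
    rintro w (hw | ⟨t, ht, htw⟩)
    · by_cases hws : w = s
      · exact hws ▸ h1.1
      · exact closedNbhd_subset_cl _ (Or.inl (Finset.mem_coe.2 (Finset.mem_erase.2 ⟨hws, hw⟩)))
    · by_cases hts : t = s
      · subst hts
        exact h1.2 htw
      · exact closedNbhd_subset_cl _ (Or.inr ⟨t, Finset.mem_coe.2 (Finset.mem_erase.2 ⟨hts, ht⟩), htw⟩)
  have hy : ∀ s ∈ S, ∃ y, Clus G k s y ∧ y ∉ cl G k ((S.erase s : Finset V) : Set V) := by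
    intro s hs
    by_contra hcon'
    have hall : ∀ y, Clus G k s y → y ∈ cl G k ((S.erase s : Finset V) : Set V) := by
      intro y hy
      by_contra h
      exact hcon' ⟨y, hy, h⟩
    obtain ⟨Q, hQ, hsQ⟩ := hS.1 s hs
    apply hnfull s hs
    exact ⟨Q, hQ, hsQ, fun x hx => hall x (Relation.ReflTransGen.single ⟨Q, hQ, hsQ, hx⟩)⟩
  choose! y hy1 hy2 using hy
  -- closed neighbourhood of `y s`
  have hin : ∀ s ∈ S, ∀ z ∈ insert (y s) (G.neighborSet (y s)),
      Clus G k s z ∨ z ∉ cl G k ((S.erase s : Finset V) : Set V) := by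
    intro s hs z hz
    by_cases hzM : z ∈ cl G k ((S.erase s : Finset V) : Set V)
    · left
      rcases hz with rfl | hz
      · exact hy1 s hs
      · have hz' : G.Adj (y s) z := hz
        obtain ⟨Q, hQ, h1, h2⟩ := big_of_boundary hG hzM hz'.symm (hy2 s hs)
        exact (hy1 s hs).trans (Relation.ReflTransGen.single ⟨Q, hQ, h2, h1⟩)
    · exact Or.inr hzM
  have hout : ∀ s ∈ S, ∀ t ∈ S, t ≠ s → ∀ z ∈ insert (y t) (G.neighborSet (y t)),
      z ∈ cl G k ((S.erase s : Finset V) : Set V) := by
    intro s hs t ht hts z hz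
    have h1 := ((hfull s hs t ht hts).clus hreg hr (closed_cl _) (hy1 t ht)).nbhd hreg hr
      (closed_cl _)
    rcases hz with rfl | hz
    · exact h1.1
    · exact h1.2 hz
  have hdisj : ∀ s ∈ S, ∀ t ∈ S, s ≠ t → Disjoint (insert (y s) (G.neighborSet (y s)))
      (insert (y t) (G.neighborSet (y t))) := by
    intro s hs t ht hst
    rw [Set.disjoint_left]
    intro z hz1 hz2
    have h1 := hout s hs t ht (Ne.symm hst) z hz2
    have h2 := hout t ht s hs hst z hz1
    have h3 : Clus G k s z := (hin s hs z hz1).resolve_right (fun h => h h1)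
    have h4 : Clus G k t z := (hin t ht z hz2).resolve_right (fun h => h h2)
    have h5 : Clus G k t s := h4.trans h3.symm
    exact hnfull s hs ((hfull s hs t ht (Ne.symm hst)).clus hreg hr (closed_cl _) h5)
  have : Fintype V := Fintype.ofFinite V
  have hcardU : (S.biUnion fun s => (insert (y s) (G.neighborSet (y s))).toFinset).card =
      S.card * (r + 1) := by
    rw [Finset.card_biUnion]
    · rw [Finset.sum_congr rfl (fun s _ => ?_), Finset.sum_const, smul_eq_mul]
      rw [← Set.ncard_eq_toFinset_card', hNcard]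
    · intro s hs t ht hst
      exact Set.disjoint_toFinset.2 (hdisj s hs t ht hst)
  rw [← hcardU, Nat.card_eq_fintype_card]
  exact Finset.card_le_univ _

end Upper

section Lower

/-- The vertices of the extremal graph: two copies (indexed by `Bool`) of two blocks of size `m`
(indexed by `Bool`, `true` for the block `A`, `false` for the block `T`), and `c` more vertices. -/
abbrev W (m c : ℕ) : Type := (Bool × Bool × ZMod m) ⊕ Fin c

/-- The cross relation between the two `T` blocks. -/
def cross (m c : ℕ) (i j : ZMod m) : Prop := i = j ∨ (c = 2 ∧ j = i + 1)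

/-- The adjacency of the extremal graph. -/
def adj (m c : ℕ) : W m c → W m c → Prop
  | Sum.inl (s, κ, i), Sum.inl (s', κ', j) =>
      (s = s' ∧ (κ, i) ≠ (κ', j)) ∨
      (κ = false ∧ κ' = false ∧ ((s = false ∧ s' = true ∧ cross m c i j) ∨
        (s = true ∧ s' = false ∧ cross m c j i)))
  | Sum.inl (_, κ, _), Sum.inr _ => κ = true
  | Sum.inr _, Sum.inl (_, κ, _) => κ = true
  | Sum.inr z, Sum.inr z' => z ≠ z'

/-- The extremal graph. -/
def ext (m c : ℕ) : SimpleGraph (W m c) where
  Adj := adj m c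
  symm := ⟨by
    rintro (⟨s, κ, i⟩ | z) (⟨s', κ', j⟩ | z') h
    · simp only [adj] at h ⊢
      rcases h with ⟨h1, h2⟩ | ⟨h1, h2, h3⟩
      · exact Or.inl ⟨h1.symm, Ne.symm h2⟩
      · right
        refine ⟨h2, h1, ?_⟩
        tauto
    · exact h
    · exact h
    · exact Ne.symm h⟩
  loopless := ⟨by
    rintro (⟨s, κ, i⟩ | z) h
    · simp only [adj] at h
      rcases h with ⟨h1, h2⟩ | ⟨h1, h2, h3⟩
      · exact h2 rfl
      · rcases h3 with ⟨h3, h4, -⟩ | ⟨h3, h4, -⟩ <;> rw [h3] at h4 <;> cases h4
    · exact h rfl⟩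

variable {m c : ℕ}

lemma ext_adj {v w : W m c} : (ext m c).Adj v w ↔ adj m c v w := Iff.rfl

lemma ext_card [NeZero m] : Fintype.card (W m c) = 4 * m + c := by
  simp only [W, Fintype.card_sum, Fintype.card_prod, Fintype.card_bool, ZMod.card, Fintype.card_fin]
  ring

lemma ext_connected [NeZero m] (hc : 0 < c) : (ext m c).Connected := by
  have hA : ∀ s i, (ext m c).Adj (Sum.inl (s, true, i)) (Sum.inr ⟨0, hc⟩) := by
    intro s i
    rw [ext_adj]
    simp [adj]
  have hT : ∀ s i, (ext m c).Adj (Sum.inl (s, false, i)) (Sum.inl (s, true, i)) := by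
    intro s i
    rw [ext_adj]
    simp [adj]
  have key : ∀ v, (ext m c).Reachable v (Sum.inr ⟨0, hc⟩) := by
    rintro (⟨s, κ, i⟩ | z)
    · cases κ
      · exact (hT s i).reachable.trans (hA s i).reachable
      · exact (hA s i).reachable
    · have : (ext m c).Adj (Sum.inr z) (Sum.inl (true, true, 0)) := by
        rw [ext_adj]
        simp [adj]
      exact this.reachable.trans (hA true 0).reachable
  have : Nonempty (W m c) := ⟨Sum.inr ⟨0, hc⟩⟩
  exact ⟨fun u v => (key u).trans (key v).symm⟩

lemma clawFree_of_coloring {V : Type} {G : SimpleGraph V}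
    (h : ∀ v, ∃ f : V → Bool, ∀ a b, G.Adj v a → G.Adj v b → a ≠ b → f a = f b → G.Adj a b) :
    ClawFree G := by
  rintro ⟨φ⟩
  obtain ⟨f, hf⟩ := h (φ (Sum.inl 0))
  have h1 : ∀ i, G.Adj (φ (Sum.inl 0)) (φ (Sum.inr i)) := by
    intro i
    rw [φ.map_adj_iff]
    simp [completeBipartiteGraph]
  have h2 : ∀ i j, ¬ G.Adj (φ (Sum.inr i)) (φ (Sum.inr j)) := by
    intro i j
    rw [φ.map_adj_iff]
    simp [completeBipartiteGraph]
  have h3 : ∀ i j : Fin 3, i ≠ j → f (φ (Sum.inr i)) ≠ f (φ (Sum.inr j)) := by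
    intro i j hij hfe
    refine h2 i j (hf _ _ (h1 i) (h1 j) ?_ hfe)
    intro h
    exact hij (Sum.inr_injective (φ.injective h))
  have h01 := h3 0 1 (by decide)
  have h02 := h3 0 2 (by decide)
  have h12 := h3 1 2 (by decide)
  revert h01 h02 h12
  cases f (φ (Sum.inr 0)) <;> cases f (φ (Sum.inr 1)) <;> cases f (φ (Sum.inr 2)) <;> simp

lemma ext_clawFree : ClawFree (ext m c) := by
  apply clawFree_of_coloring
  rintro (⟨s, κ, i⟩ | z)
  · refine ⟨fun w => match w with
      | Sum.inl (s', _, _) => s' == s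
      | Sum.inr _ => false, ?_⟩
    rintro (⟨s1, κ1, i1⟩ | z1) (⟨s2, κ2, i2⟩ | z2) h1 h2 h3 h4 <;>
      rw [ext_adj] at h1 h2 ⊢
    · have h3' : s1 = s2 → (κ1, i1) ≠ (κ2, i2) := by
        rintro rfl h
        apply h3
        rw [h]
      simp only [adj] at h1 h2 ⊢
      cases s <;> cases s1 <;> cases s2 <;> simp_all
    · exfalso
      simp only [adj] at h1 h2
      rcases h1 with ⟨h1, -⟩ | ⟨h1, -⟩
      · subst h1
        simp at h4
      · rw [h1] at h2
        cases h2
    · exfalso
      simp only [adj] at h1 h2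
      rcases h2 with ⟨h2, -⟩ | ⟨h2, -⟩
      · subst h2
        simp at h4
      · rw [h1] at h2
        cases h2
    · simp only [adj] at h1 h2 ⊢
      intro h
      exact h3 (by rw [h])
  · refine ⟨fun w => match w with
      | Sum.inl (s', _, _) => s'
      | Sum.inr _ => false, ?_⟩
    rintro (⟨s1, κ1, i1⟩ | z1) (⟨s2, κ2, i2⟩ | z2) h1 h2 h3 h4 <;>
      rw [ext_adj] at h1 h2 ⊢
    · have h3' : s1 = s2 → (κ1, i1) ≠ (κ2, i2) := by
        rintro rfl h
        apply h3
        rw [h]
      simp only [adj] at h1 h2 ⊢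
      simp_all
    · simp only [adj] at h1 h2 ⊢
      simp_all
    · simp only [adj] at h1 h2 ⊢
      simp_all
    · simp only [adj] at h1 h2 ⊢
      intro h
      exact h3 (by rw [h])

lemma sum_ne {ι : Type} [Fintype ι] [DecidableEq ι] (i : ι) :
    (∑ x : ι, if i = x then 0 else 1) + 1 = Fintype.card ι := by
  have h1 : (∑ x : ι, if i = x then 1 else 0) = 1 := by simp
  rw [← h1, ← Finset.sum_add_distrib, h1, Fintype.card_eq_sum_ones]
  refine Finset.sum_congr rfl fun x _ => ?_
  split_ifs <;> rfl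

open Classical in
lemma card_cross [Fact (1 < m)] [NeZero m] (hc : c = 1 ∨ c = 2) (i : ZMod m) :
    (Finset.univ.filter fun x => cross m c i x).card = c := by
  rcases hc with rfl | rfl
  · have : (Finset.univ.filter fun x => cross m 1 i x) = {i} := by
      ext x
      simp [cross, eq_comm]
    rw [this, Finset.card_singleton]
  · have : (Finset.univ.filter fun x => cross m 2 i x) = {i, i + 1} := by
      ext x
      simp [cross, eq_comm]
    rw [this, Finset.card_pair]
    simp

open Classical in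
lemma card_cross' [Fact (1 < m)] [NeZero m] (hc : c = 1 ∨ c = 2) (i : ZMod m) :
    (Finset.univ.filter fun x => cross m c x i).card = c := by
  rcases hc with rfl | rfl
  · have : (Finset.univ.filter fun x => cross m 1 x i) = {i} := by
      ext x
      simp [cross]
    rw [this, Finset.card_singleton]
  · have : (Finset.univ.filter fun x => cross m 2 x i) = {i, i - 1} := by
      ext x
      simp [cross, eq_sub_iff_add_eq, eq_comm]
    rw [this, Finset.card_pair]
    intro h
    rw [eq_comm, sub_eq_self] at h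
    exact one_ne_zero h

/-- Degrees: the extremal graph is regular of degree `2 * m - 1 + c`. -/
lemma ext_regular [Fact (1 < m)] [NeZero m] (hc : c = 1 ∨ c = 2) (v : W m c) :
    ((ext m c).neighborSet v).ncard = 2 * m - 1 + c := by
  classical
  have hm : 1 < m := Fact.out
  have hcard : ((ext m c).neighborSet v).ncard =
      ∑ w : W m c, if adj m c v w then 1 else 0 := by
    rw [Set.ncard_eq_toFinset_card']
    rw [← Finset.card_filter]
    congr 1
    ext w
    rw [Set.mem_toFinset, SimpleGraph.mem_neighborSet, ext_adj]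
    simp
  rw [hcard, Fintype.sum_sum_type, Fintype.sum_prod_type, Fintype.sum_bool]
  simp only [Fintype.sum_prod_type, Fintype.sum_bool]
  rcases v with (⟨s, κ, i⟩ | z)
  · have h1 := sum_ne i
    rw [ZMod.card] at h1
    have h2 := card_cross hc i
    have h3 := card_cross' hc i
    cases κ
    · cases s
      · simp only [adj]
        simp
        omega
      · simp [adj]
        omega
    · cases s
      · simp [adj]
        omega
      · simp [adj]
        omega
  · have h1 := sum_ne z
    rw [Fintype.card_fin] at h1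
    have h2 : m + m + (∑ x : Fin c, if z = x then 0 else 1) = 2 * m - 1 + c := by omega
    have h3 : ∀ x : Fin c, (if adj m c (Sum.inr z) (Sum.inr x) then 1 else 0) =
        if z = x then 0 else 1 := by
      intro x
      by_cases hzx : z = x
      · have h : ¬ adj m c (Sum.inr z) (Sum.inr x) := fun h => h hzx
        rw [if_neg h, if_pos hzx]
      · have h : adj m c (Sum.inr z) (Sum.inr x) := hzx
        rw [if_pos h, if_neg hzx]
    rw [← h2, Finset.sum_congr rfl fun x _ => h3 x]
    simp [adj]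

/-- No single vertex power dominates the extremal graph. -/
lemma ext_not_dominated [NeZero m] {k : ℕ} (hk : k < m) (v : W m c) :
    cl (ext m c) k {v} ≠ Set.univ := by
  -- blocks
  have hblock : ∀ (s κ : Bool) (C : Set (W m c)) (u : W m c),
      (∀ i : ZMod m, (ext m c).Adj u (Sum.inl (s, κ, i))) →
      (∀ i : ZMod m, (Sum.inl (s, κ, i) : W m c) ∉ C) →
      ¬ ((ext m c).neighborSet u \ C).ncard ≤ k := by
    intro s κ C u h1 h2 h3
    have h4 : Set.range (fun i : ZMod m => (Sum.inl (s, κ, i) : W m c)) ⊆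
        (ext m c).neighborSet u \ C := by
      rintro _ ⟨i, rfl⟩
      exact ⟨h1 i, h2 i⟩
    have h5 := Set.ncard_le_ncard h4 (Set.toFinite _)
    have h6 : (Set.range (fun i : ZMod m => (Sum.inl (s, κ, i) : W m c))).ncard = m := by
      rw [← Set.image_univ, Set.ncard_image_of_injective, Set.ncard_univ, Nat.card_zmod]
      intro i j hij
      simpa using hij
    omega
  intro hcl
  rcases v with (⟨s, κ, i⟩ | z)
  · let C : Set (W m c) := {w | ∀ j, w ≠ Sum.inl (!s, true, j)}
    have hC : Closed (ext m c) k C := by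
      intro u hu hck w hw j hwj
      subst hwj
      refine hblock (!s) true C u ?_ (fun i h => h i rfl) hck
      intro j'
      have hu' : ∀ j, u ≠ Sum.inl (!s, true, j) := hu
      rw [SimpleGraph.mem_neighborSet, ext_adj] at hw
      rw [ext_adj]
      rcases u with (⟨s1, κ1, i1⟩ | z1)
      · simp only [adj] at hw ⊢
        rcases hw with ⟨h1, h2⟩ | ⟨h1, h2, -⟩
        · left
          refine ⟨h1, ?_⟩
          intro h
          apply hu' j'
          rw [h1, h]
        · cases h2
      · simp [adj]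
    have hsub : closedNbhd (ext m c) {Sum.inl (s, κ, i)} ⊆ C := by
      rintro w (hw | ⟨x, hx, hxw⟩) j rfl
      · rw [Set.mem_singleton_iff] at hw
        injection hw with hw
        injection hw with hw
        cases s <;> cases hw
      · rw [Set.mem_singleton_iff] at hx
        subst hx
        rw [ext_adj] at hxw
        simp only [adj] at hxw
        rcases hxw with ⟨h1, h2⟩ | ⟨h1, h2, -⟩
        · cases s <;> cases h1
        · cases h2
    have := cl_subset hC hsub (hcl ▸ Set.mem_univ (Sum.inl (!s, true, 0)))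
    exact this 0 rfl
  · let C : Set (W m c) := {w | ∀ s j, w ≠ Sum.inl (s, false, j)}
    have hC : Closed (ext m c) k C := by
      intro u hu hck w hw s' j hwj
      subst hwj
      refine hblock s' false C u ?_ (fun i h => h s' i rfl) hck
      intro j'
      have hu' : ∀ s j, u ≠ Sum.inl (s, false, j) := hu
      rw [SimpleGraph.mem_neighborSet, ext_adj] at hw
      rw [ext_adj]
      rcases u with (⟨s1, κ1, i1⟩ | z1)
      · simp only [adj] at hw ⊢
        have hκ : κ1 = true := by
          cases κ1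
          · exact absurd rfl (hu' s1 i1)
          · rfl
        subst hκ
        rcases hw with ⟨h1, h2⟩ | ⟨h1, h2, -⟩
        · left
          refine ⟨h1, by simp⟩
        · cases h1
      · simp [adj] at hw
    have hsub : closedNbhd (ext m c) {Sum.inr z} ⊆ C := by
      rintro w (hw | ⟨x, hx, hxw⟩) s j rfl
      · rw [Set.mem_singleton_iff] at hw
        cases hw
      · rw [Set.mem_singleton_iff] at hx
        subst hx
        rw [ext_adj] at hxw
        simp [adj] at hxw
    have := cl_subset hC hsub (hcl ▸ Set.mem_univ (Sum.inl (true, false, 0)))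
    exact this true 0 rfl

end Lower

/-- `k` is such that every connected claw-free `r`-regular graph `G` of order `n` satisfies
`γ_{p,k}(G) ≤ n / (r + 1)`. -/
def Bound (r k : ℕ) : Prop :=
  ∀ (V : Type) [Fintype V] (G : SimpleGraph V), G.Connected → ClawFree G →
    (∀ v, (G.neighborSet v).ncard = r) →
      (powerDominationNumber G k : ℝ) ≤ (Fintype.card V : ℝ) / ((r : ℝ) + 1)

/-- For every `r ≥ 3`, the smallest positive integer `k` such that every connected claw-free
`r`-regular graph of order `n` satisfies `γ_{p,k} ≤ n / (r + 1)` is `⌊r / 2⌋`. -/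
theorem result (r : ℕ) (hr : 3 ≤ r) : IsLeast {k : ℕ | 0 < k ∧ Bound r k} (r / 2) := by
  refine ⟨⟨by omega, ?_⟩, ?_⟩
  · intro V _ G hcon hG hreg
    obtain ⟨S, hS, hcard⟩ := upper (k := r / 2) hcon hG hreg (by omega)
    have h1 : powerDominationNumber G (r / 2) ≤ S.card := Nat.sInf_le ⟨S, rfl, hS⟩
    rw [le_div_iff₀ (by positivity)]
    rw [Nat.card_eq_fintype_card] at hcard
    have h2 : powerDominationNumber G (r / 2) * (r + 1) ≤ Fintype.card V :=
      (Nat.mul_le_mul_right _ h1).trans hcard
    exact_mod_cast h2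
  · rintro k ⟨hk, hB⟩
    by_contra hlt
    push Not at hlt
    have hm : 1 < r / 2 := by omega
    have : Fact (1 < r / 2) := ⟨hm⟩
    have : NeZero (r / 2) := ⟨by omega⟩
    obtain ⟨c, hc, hrc⟩ : ∃ c, (c = 1 ∨ c = 2) ∧ r = 2 * (r / 2) - 1 + c := by
      rcases Nat.even_or_odd' r with ⟨q, hq | hq⟩
      · exact ⟨1, Or.inl rfl, by omega⟩
      · exact ⟨2, Or.inr rfl, by omega⟩
    have hb := hB (W (r / 2) c) (ext (r / 2) c) (ext_connected (by omega)) ext_clawFree
      (fun v => (ext_regular hc v).trans hrc.symm)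
    rw [ext_card, le_div_iff₀ (by positivity)] at hb
    have hb' : powerDominationNumber (ext (r / 2) c) k * (r + 1) ≤ 4 * (r / 2) + c := by
      exact_mod_cast hb
    have hne : {n | ∃ S : Finset (W (r / 2) c), S.card = n ∧
        IsPowerDominating (ext (r / 2) c) k (S : Set (W (r / 2) c))}.Nonempty := by
      refine ⟨_, Finset.univ, rfl, ?_⟩
      rw [isPowerDominating_iff, Set.eq_univ_iff_forall]
      intro x
      exact closedNbhd_subset_cl _ (Or.inl (by simp))
    obtain ⟨S, hScard, hS⟩ := Nat.sInf_mem hne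
    change S.card = powerDominationNumber (ext (r / 2) c) k at hScard
    rw [isPowerDominating_iff] at hS
    have h2 : 2 ≤ S.card := by
      by_contra hlt2
      push Not at hlt2
      have h3 : S.card = 0 ∨ S.card = 1 := by omega
      rcases h3 with h3 | h3
      · rw [Finset.card_eq_zero] at h3
        subst h3
        refine ext_not_dominated hlt (Sum.inr ⟨0, by omega⟩ : W (r / 2) c) ?_
        rw [Set.eq_univ_iff_forall] at hS ⊢
        intro x
        refine cl_subset (closed_cl _) ?_ (hS x)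
        rintro w (hw | ⟨y, hy, -⟩)
        · simp at hw
        · simp at hy
      · obtain ⟨v, rfl⟩ := Finset.card_eq_one.1 h3
        apply ext_not_dominated hlt v
        rwa [Finset.coe_singleton] at hS
    rw [← hScard] at hb'
    have h3 := Nat.mul_le_mul_right (r + 1) h2
    have h4 := h3.trans hb'
    omega

end Pool.Agent.Results.MP_19e396_co.KMin
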